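import Mathlib

/-!
# Level curves of `a x + b x * y`

Along a level curve of `p = a x + b x * y` in a strip where `b` has no zero the function `q` is strictly
monotone, since its derivative is minus the Jacobian divided by `b x`.
-/

namespace Pool.Agent.Lib.MP_95cf14_ag.LC

/-- one step along a level curve, `b` positive, Jacobian positive -/
private theorem step (a b da db : ℝ → ℝ) (ha : ∀ x, HasDerivAt a (da x) x)
    (hb : ∀ x, HasDerivAt b (db x) x) (q qx qy : ℝ × ℝ → ℝ)
    (hq : ∀ z, HasFDerivAt q (qx z • ContinuousLinearMap.fst ℝ ℝ ℝ +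
      qy z • ContinuousLinearMap.snd ℝ ℝ ℝ) z)
    (hJ : ∀ z : ℝ × ℝ, 0 < (da z.1 + db z.1 * z.2) * qy z - b z.1 * qx z)
    {x₁ x₂ : ℝ} (h12 : x₁ < x₂) (hpos : ∀ x ∈ Set.Icc x₁ x₂, 0 < b x) (c : ℝ) :
    q (x₂, (c - a x₂) / b x₂) < q (x₁, (c - a x₁) / b x₁) := by
  have hder : ∀ x ∈ Set.Icc x₁ x₂, HasDerivAt (fun x => q (x, (c - a x) / b x))
      (-(((da x + db x * ((c - a x) / b x)) * qy (x, (c - a x) / b x) -
        b x * qx (x, (c - a x) / b x))) / b x) x := by
    intro x hx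
    have hb0 := (hpos x hx).ne'
    have h1 : HasDerivAt (fun x => (c - a x) / b x)
        ((-(da x) * b x - (c - a x) * db x) / b x ^ 2) x := by
      have h2 : HasDerivAt (fun x => c - a x) (-(da x)) x := (ha x).const_sub c
      exact h2.div (hb x) hb0
    have h3 : HasDerivAt (fun x => (x, (c - a x) / b x))
        ((1 : ℝ), (-(da x) * b x - (c - a x) * db x) / b x ^ 2) x := (hasDerivAt_id x).prodMk h1
    have h4 := (hq (x, (c - a x) / b x)).comp_hasDerivAt x h3
    have h5 : (qx (x, (c - a x) / b x) • ContinuousLinearMap.fst ℝ ℝ ℝ +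
        qy (x, (c - a x) / b x) • ContinuousLinearMap.snd ℝ ℝ ℝ)
        ((1 : ℝ), (-(da x) * b x - (c - a x) * db x) / b x ^ 2) =
        -(((da x + db x * ((c - a x) / b x)) * qy (x, (c - a x) / b x) -
          b x * qx (x, (c - a x) / b x))) / b x := by
      change qx (x, (c - a x) / b x) * 1 +
        qy (x, (c - a x) / b x) * ((-(da x) * b x - (c - a x) * db x) / b x ^ 2) = _
      field_simp
      ring
    rw [← h5]
    exact h4
  have hanti : StrictAntiOn (fun x => q (x, (c - a x) / b x)) (Set.Icc x₁ x₂) := by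
    apply strictAntiOn_of_deriv_neg (convex_Icc x₁ x₂)
    · intro x hx
      exact (hder x hx).continuousAt.continuousWithinAt
    · intro x hx
      rw [interior_Icc] at hx
      have hx' : x ∈ Set.Icc x₁ x₂ := ⟨hx.1.le, hx.2.le⟩
      rw [(hder x hx').deriv]
      apply div_neg_of_neg_of_pos _ (hpos x hx')
      have := hJ (x, (c - a x) / b x)
      simp only at this
      linarith
  exact hanti (Set.left_mem_Icc.mpr h12.le) (Set.right_mem_Icc.mpr h12.le) h12

/-- no zero of `b` next to an interval where `b` is positive -/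
private theorem no_zero (a b da db : ℝ → ℝ) (ha : ∀ x, HasDerivAt a (da x) x)
    (hb : ∀ x, HasDerivAt b (db x) x) (q qx qy : ℝ × ℝ → ℝ)
    (hq : ∀ z, HasFDerivAt q (qx z • ContinuousLinearMap.fst ℝ ℝ ℝ +
      qy z • ContinuousLinearMap.snd ℝ ℝ ℝ) z)
    (hJ : ∀ z : ℝ × ℝ, 0 < (da z.1 + db z.1 * z.2) * qy z - b z.1 * qx z)
    (hu : ∀ x K, (∀ y, qy (x, y) ≠ 0) → (∃ y, q (x, y) < K) ∧ ∃ y, K < q (x, y))
    {x₀ x₁ : ℝ} (h01 : x₀ < x₁) (h0 : b x₀ = 0) (hpos : ∀ x ∈ Set.Ioc x₀ x₁, 0 < b x) : False := by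
  have hac : Continuous a := continuous_iff_continuousAt.mpr fun x => (ha x).continuousAt
  have hbc : Continuous b := continuous_iff_continuousAt.mpr fun x => (hb x).continuousAt
  have hqc : Continuous q := continuous_iff_continuousAt.mpr fun z => (hq z).continuousAt
  have hqy : ∀ y, qy (x₀, y) ≠ 0 := by
    intro y hy
    have := hJ (x₀, y)
    simp only [hy, h0] at this
    simp at this
  have key : ∀ y, q (x₁, (a x₀ - a x₁) / b x₁) ≤ q (x₀, y) := by
    intro y
    have hlim1 : Filter.Tendsto (fun x => q (x₁, (a x + b x * y - a x₁) / b x₁))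
        (nhdsWithin x₀ (Set.Ioi x₀)) (nhds (q (x₁, (a x₀ - a x₁) / b x₁))) := by
      have hc1 : Continuous fun x => q (x₁, (a x + b x * y - a x₁) / b x₁) := by
        apply hqc.comp
        apply Continuous.prodMk continuous_const
        exact ((hac.add (hbc.mul continuous_const)).sub continuous_const).div_const _
      have h2 := hc1.tendsto x₀
      simp only [h0, zero_mul, add_zero] at h2
      exact h2.mono_left nhdsWithin_le_nhds
    have hlim2 : Filter.Tendsto (fun x => q (x, y)) (nhdsWithin x₀ (Set.Ioi x₀))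
        (nhds (q (x₀, y))) := by
      have hc1 : Continuous fun x => q (x, y) := hqc.comp (Continuous.prodMk continuous_id continuous_const)
      exact (hc1.tendsto x₀).mono_left nhdsWithin_le_nhds
    apply le_of_tendsto_of_tendsto hlim1 hlim2
    have hev : ∀ᶠ x in nhdsWithin x₀ (Set.Ioi x₀), x ∈ Set.Ioo x₀ x₁ := Ioo_mem_nhdsGT h01
    filter_upwards [hev] with x hx
    have h3 := step a b da db ha hb q qx qy hq hJ hx.2
      (fun t ht => hpos t ⟨lt_of_lt_of_le hx.1 ht.1, ht.2⟩) (a x + b x * y)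
    have hbx : b x ≠ 0 := (hpos x ⟨hx.1, hx.2.le⟩).ne'
    have h4 : (a x + b x * y - a x) / b x = y := by
      field_simp
      ring
    rw [h4] at h3
    exact h3.le
  obtain ⟨y, hy⟩ := (hu x₀ (q (x₁, (a x₀ - a x₁) / b x₁)) hqy).1
  exact absurd (key y) (not_le.mpr hy)

/-- the derivative of `-q` -/
private theorem neg_q {q qx qy : ℝ × ℝ → ℝ}
    (hq : ∀ z, HasFDerivAt q (qx z • ContinuousLinearMap.fst ℝ ℝ ℝ +
      qy z • ContinuousLinearMap.snd ℝ ℝ ℝ) z) (z : ℝ × ℝ) :
    HasFDerivAt (fun z => -q z) ((-qx z) • ContinuousLinearMap.fst ℝ ℝ ℝ +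
      (-qy z) • ContinuousLinearMap.snd ℝ ℝ ℝ) z := by
  have h := (hq z).neg
  have e : (-qx z) • ContinuousLinearMap.fst ℝ ℝ ℝ + (-qy z) • ContinuousLinearMap.snd ℝ ℝ ℝ =
      -(qx z • ContinuousLinearMap.fst ℝ ℝ ℝ + qy z • ContinuousLinearMap.snd ℝ ℝ ℝ) := by
    apply ContinuousLinearMap.ext
    intro w
    change (-qx z) * w.1 + (-qy z) * w.2 = -(qx z * w.1 + qy z * w.2)
    ring
  rw [e]
  exact h

private theorem neg_u {q qy : ℝ × ℝ → ℝ}
    (hu : ∀ x K, (∀ y, qy (x, y) ≠ 0) → (∃ y, q (x, y) < K) ∧ ∃ y, K < q (x, y)) (x K : ℝ)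
    (h : ∀ y, -qy (x, y) ≠ 0) : (∃ y, -q (x, y) < K) ∧ ∃ y, K < -q (x, y) := by
  obtain ⟨⟨y, hy⟩, ⟨y', hy'⟩⟩ := hu x (-K) (fun y => neg_ne_zero.mp (h y))
  exact ⟨⟨y', by linarith⟩, ⟨y, by linarith⟩⟩

/-- a continuous function without zero on an interval has one sign -/
private theorem sign_Ioc {b : ℝ → ℝ} (hbc : Continuous b) {S : Set ℝ} (hS : S.OrdConnected)
    (hne : ∀ x ∈ S, b x ≠ 0) : (∀ x ∈ S, 0 < b x) ∨ ∀ x ∈ S, b x < 0 := by
  by_contra hcon
  push Not at hcon
  obtain ⟨⟨u, hu, hu'⟩, ⟨v, hv, hv'⟩⟩ := hcon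
  have h1 : IsPreconnected S := hS.isPreconnected
  have h2 := h1.intermediate_value hu hv hbc.continuousOn
  obtain ⟨w, hw, hw'⟩ := h2 ⟨hu', hv'⟩
  exact hne w hw hw'

private theorem no_zero' (a b da db : ℝ → ℝ) (ha : ∀ x, HasDerivAt a (da x) x)
    (hb : ∀ x, HasDerivAt b (db x) x) (q qx qy : ℝ × ℝ → ℝ)
    (hq : ∀ z, HasFDerivAt q (qx z • ContinuousLinearMap.fst ℝ ℝ ℝ +
      qy z • ContinuousLinearMap.snd ℝ ℝ ℝ) z)
    (hJ : ∀ z : ℝ × ℝ, 0 < (da z.1 + db z.1 * z.2) * qy z - b z.1 * qx z)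
    (hu : ∀ x K, (∀ y, qy (x, y) ≠ 0) → (∃ y, q (x, y) < K) ∧ ∃ y, K < q (x, y))
    {x₀ x₁ : ℝ} (h01 : x₀ < x₁) (h0 : b x₀ = 0) (hne : b x₁ ≠ 0) : False := by
  have hbc : Continuous b := continuous_iff_continuousAt.mpr fun x => (hb x).continuousAt
  let Z : Set ℝ := {x | x ∈ Set.Icc x₀ x₁ ∧ b x = 0}
  have hZc : IsCompact Z := by
    have h1 : IsClosed {x | b x = 0} := isClosed_eq hbc continuous_const
    exact isCompact_Icc.inter_right h1
  have hZn : Z.Nonempty := ⟨x₀, ⟨le_refl _, h01.le⟩, h0⟩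
  obtain ⟨m, hm, hmax⟩ := hZc.exists_isGreatest hZn
  have hm1 : m < x₁ := by
    rcases lt_or_eq_of_le hm.1.2 with h | h
    · exact h
    · exact absurd (h ▸ hm.2) hne
  have hne' : ∀ x ∈ Set.Ioc m x₁, b x ≠ 0 := by
    intro x hx hx0
    have h1 : x ≤ m := hmax ⟨⟨hm.1.1.trans hx.1.le, hx.2⟩, hx0⟩
    exact absurd hx.1 (not_lt.mpr h1)
  rcases sign_Ioc hbc Set.ordConnected_Ioc hne' with h | h
  · exact no_zero a b da db ha hb q qx qy hq hJ hu hm1 hm.2 h
  · refine no_zero (fun x => -a x) (fun x => -b x) (fun x => -da x) (fun x => -db x)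
      (fun x => (ha x).neg) (fun x => (hb x).neg) (fun z => -q z) (fun z => -qx z)
      (fun z => -qy z) (neg_q hq) (fun z => ?_) (neg_u hu) hm1 ?_ (fun x hx => ?_)
    · have := hJ z
      nlinarith
    · rw [hm.2, neg_zero]
    · have := h x hx
      change 0 < -b x
      linarith

/-- the mirror image -/
private theorem mir {q qx qy : ℝ × ℝ → ℝ}
    (hq : ∀ z, HasFDerivAt q (qx z • ContinuousLinearMap.fst ℝ ℝ ℝ +
      qy z • ContinuousLinearMap.snd ℝ ℝ ℝ) z) (z : ℝ × ℝ) :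
    HasFDerivAt (fun z : ℝ × ℝ => -q (-z.1, z.2)) (qx (-z.1, z.2) • ContinuousLinearMap.fst ℝ ℝ ℝ +
      (-qy (-z.1, z.2)) • ContinuousLinearMap.snd ℝ ℝ ℝ) z := by
  have h1 : HasFDerivAt (fun z : ℝ × ℝ => (-z.1, z.2))
      ((-(ContinuousLinearMap.fst ℝ ℝ ℝ)).prod (ContinuousLinearMap.snd ℝ ℝ ℝ)) z :=
    (hasFDerivAt_fst.neg).prodMk hasFDerivAt_snd
  have h2 := ((hq (-z.1, z.2)).comp z h1).neg
  have e : qx (-z.1, z.2) • ContinuousLinearMap.fst ℝ ℝ ℝ +
      (-qy (-z.1, z.2)) • ContinuousLinearMap.snd ℝ ℝ ℝ =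
      -((qx (-z.1, z.2) • ContinuousLinearMap.fst ℝ ℝ ℝ +
        qy (-z.1, z.2) • ContinuousLinearMap.snd ℝ ℝ ℝ).comp
        ((-(ContinuousLinearMap.fst ℝ ℝ ℝ)).prod (ContinuousLinearMap.snd ℝ ℝ ℝ))) := by
    apply ContinuousLinearMap.ext
    intro w
    change qx (-z.1, z.2) * w.1 + (-qy (-z.1, z.2)) * w.2 =
      -(qx (-z.1, z.2) * (-w.1) + qy (-z.1, z.2) * w.2)
    ring
  rw [e]
  exact h2

/-- either `b` vanishes identically or it has no zero -/
private theorem zeros (a b da db : ℝ → ℝ) (ha : ∀ x, HasDerivAt a (da x) x)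
    (hb : ∀ x, HasDerivAt b (db x) x) (q qx qy : ℝ × ℝ → ℝ)
    (hq : ∀ z, HasFDerivAt q (qx z • ContinuousLinearMap.fst ℝ ℝ ℝ +
      qy z • ContinuousLinearMap.snd ℝ ℝ ℝ) z)
    (hJ : ∀ z : ℝ × ℝ, 0 < (da z.1 + db z.1 * z.2) * qy z - b z.1 * qx z)
    (hu : ∀ x K, (∀ y, qy (x, y) ≠ 0) → (∃ y, q (x, y) < K) ∧ ∃ y, K < q (x, y))
    {s t : ℝ} (hs : b s = 0) (ht : b t ≠ 0) : False := by
  rcases lt_trichotomy s t with h | h | h
  · exact no_zero' a b da db ha hb q qx qy hq hJ hu h hs ht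
  · exact ht (h ▸ hs)
  · refine no_zero' (fun x => a (-x)) (fun x => b (-x)) (fun x => -da (-x)) (fun x => -db (-x))
      (fun x => ?_) (fun x => ?_) (fun z => -q (-z.1, z.2)) (fun z => qx (-z.1, z.2))
      (fun z => -qy (-z.1, z.2)) (mir hq) (fun z => ?_) ?_ (x₀ := -s) (x₁ := -t)
      (neg_lt_neg h) ?_ ?_
    · have h1 := (ha (-x)).comp x (hasDerivAt_neg x)
      rw [mul_neg, mul_one] at h1
      exact h1
    · have h1 := (hb (-x)).comp x (hasDerivAt_neg x)
      rw [mul_neg, mul_one] at h1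
      exact h1
    · have := hJ (-z.1, z.2)
      simp only at this
      nlinarith
    · intro x K hK
      exact neg_u (q := q) (qy := qy) hu (-x) K hK
    · rw [neg_neg, hs]
    · change b (- -t) ≠ 0
      rw [neg_neg]
      exact ht

/-- the case of a positive Jacobian -/
private theorem core_pos (a b da db : ℝ → ℝ) (ha : ∀ x, HasDerivAt a (da x) x)
    (hb : ∀ x, HasDerivAt b (db x) x) (q qx qy : ℝ × ℝ → ℝ)
    (hq : ∀ z, HasFDerivAt q (qx z • ContinuousLinearMap.fst ℝ ℝ ℝ +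
      qy z • ContinuousLinearMap.snd ℝ ℝ ℝ) z)
    (hJ : ∀ z : ℝ × ℝ, 0 < (da z.1 + db z.1 * z.2) * qy z - b z.1 * qx z)
    (hu : ∀ x K, (∀ y, qy (x, y) ≠ 0) → (∃ y, q (x, y) < K) ∧ ∃ y, K < q (x, y)) :
    Function.Injective fun z : ℝ × ℝ => (a z.1 + b z.1 * z.2, q z) := by
  have hbc : Continuous b := continuous_iff_continuousAt.mpr fun x => (hb x).continuousAt
  by_cases hz : ∃ s, b s = 0
  · obtain ⟨s, hs⟩ := hz
    have hb0 : ∀ t, b t = 0 := by
      intro t
      by_contra ht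
      exact zeros a b da db ha hb q qx qy hq hJ hu hs ht
    have hq' : ∀ x y, HasDerivAt (fun y => q (x, y)) (qy (x, y)) y := by
      intro x y
      have h3 : HasDerivAt (fun y => (x, y)) ((0 : ℝ), (1 : ℝ)) y :=
        (hasDerivAt_const y x).prodMk (hasDerivAt_id y)
      have h4 := (hq (x, y)).comp_hasDerivAt y h3
      have h5 : (qx (x, y) • ContinuousLinearMap.fst ℝ ℝ ℝ +
          qy (x, y) • ContinuousLinearMap.snd ℝ ℝ ℝ) ((0 : ℝ), (1 : ℝ)) = qy (x, y) := by
        change qx (x, y) * 0 + qy (x, y) * 1 = _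
        ring
      rw [h5] at h4
      exact h4
    have hdb : ∀ x, db x = 0 := by
      intro x
      have h1 : HasDerivAt b 0 x := by
        have h2 : b = fun _ => (0 : ℝ) := funext hb0
        rw [h2]
        exact hasDerivAt_const x 0
      exact (hb x).unique h1
    have hJ0 : ∀ x y, 0 < da x * qy (x, y) := by
      intro x y
      have := hJ (x, y)
      simp only [hb0, hdb] at this
      simpa using this
    have hda : ∀ x, da x ≠ 0 := fun x hx => by
      have := hJ0 x 0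
      rw [hx, zero_mul] at this
      exact lt_irrefl _ this
    have hqy : ∀ x y, qy (x, y) ≠ 0 := fun x y hx => by
      have := hJ0 x y
      rw [hx, mul_zero] at this
      exact lt_irrefl _ this
    have inj : ∀ (g dg : ℝ → ℝ), (∀ x, HasDerivAt g (dg x) x) → (∀ x, dg x ≠ 0) →
        Function.Injective g := by
      intro g dg hg hdg x y hxy
      by_contra hne
      rcases lt_or_gt_of_ne hne with h | h
      · obtain ⟨c, -, hc⟩ := exists_hasDerivAt_eq_zero h
          (fun t _ => (hg t).continuousAt.continuousWithinAt) hxy (fun t _ => hg t)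
        exact hdg c hc
      · obtain ⟨c, -, hc⟩ := exists_hasDerivAt_eq_zero h
          (fun t _ => (hg t).continuousAt.continuousWithinAt) hxy.symm (fun t _ => hg t)
        exact hdg c hc
    rintro ⟨x, y⟩ ⟨x', y'⟩ h
    simp only [hb0, zero_mul, add_zero, Prod.mk.injEq] at h
    have hx : x = x' := inj a da ha hda h.1
    subst hx
    have hy : y = y' := inj (fun y => q (x, y)) (fun y => qy (x, y)) (hq' x) (hqy x) h.2
    rw [hy]
  · push Not at hz
    have strict : ∀ x y x' y', x < x' → a x + b x * y = a x' + b x' * y' → q (x, y) ≠ q (x', y') := by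
      intro x y x' y' hx he hqe
      have e1 : ((a x + b x * y) - a x) / b x = y := by
        have := hz x
        field_simp
        ring
      have e2 : ((a x + b x * y) - a x') / b x' = y' := by
        have := hz x'
        rw [he]
        field_simp
        ring
      rcases sign_Ioc hbc (S := Set.Icc x x') Set.ordConnected_Icc (fun t _ => hz t) with h | h
      · have h1 := step a b da db ha hb q qx qy hq hJ hx h (a x + b x * y)
        rw [e1, e2, hqe] at h1
        exact lt_irrefl _ h1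
      · have h1 := step (fun x => -a x) (fun x => -b x) (fun x => -da x) (fun x => -db x)
          (fun x => (ha x).neg) (fun x => (hb x).neg) (fun z => -q z) (fun z => -qx z)
          (fun z => -qy z) (neg_q hq) (fun z => by have := hJ z; nlinarith) hx
          (fun t ht => by have := h t ht; linarith) (-(a x + b x * y))
        have e3 : (-(a x + b x * y) - -a x) / -b x = y := by
          rw [← e1]
          have := hz x
          field_simp
          ring
        have e4 : (-(a x + b x * y) - -a x') / -b x' = y' := by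
          rw [← e2]
          have := hz x'
          field_simp
          ring
        rw [e3, e4, hqe] at h1
        exact lt_irrefl _ h1
    rintro ⟨x, y⟩ ⟨x', y'⟩ h
    simp only [Prod.mk.injEq] at h
    rcases lt_trichotomy x x' with hx | hx | hx
    · exact absurd h.2 (strict x y x' y' hx h.1)
    · subst hx
      have h1 : b x * y = b x * y' := by linarith [h.1]
      rw [mul_left_cancel₀ (hz x) h1]
    · exact absurd h.2.symm (strict x' y' x y hx h.1.symm)

theorem core (a b da db : ℝ → ℝ) (ha : ∀ x, HasDerivAt a (da x) x) (hb : ∀ x, HasDerivAt b (db x) x)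
    (q qx qy : ℝ × ℝ → ℝ)
    (hq : ∀ z, HasFDerivAt q (qx z • ContinuousLinearMap.fst ℝ ℝ ℝ + qy z • ContinuousLinearMap.snd ℝ ℝ ℝ) z)
    (hc : Continuous fun z : ℝ × ℝ => (da z.1 + db z.1 * z.2) * qy z - b z.1 * qx z)
    (hJ : ∀ z : ℝ × ℝ, (da z.1 + db z.1 * z.2) * qy z - b z.1 * qx z ≠ 0)
    (hu : ∀ x K, (∀ y, qy (x, y) ≠ 0) → (∃ y, q (x, y) < K) ∧ ∃ y, K < q (x, y)) :
    Function.Injective fun z : ℝ × ℝ => (a z.1 + b z.1 * z.2, q z) := by
  by_cases hp : ∀ z : ℝ × ℝ, 0 < (da z.1 + db z.1 * z.2) * qy z - b z.1 * qx z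
  · exact core_pos a b da db ha hb q qx qy hq hp hu
  · push Not at hp
    obtain ⟨z₀, hz₀⟩ := hp
    have hn : ∀ z : ℝ × ℝ, (da z.1 + db z.1 * z.2) * qy z - b z.1 * qx z < 0 := by
      intro z
      by_contra hz
      push Not at hz
      obtain ⟨w, hw⟩ := mem_range_of_exists_le_of_exists_ge hc ⟨z₀, hz₀⟩ ⟨z, hz⟩
      exact hJ w hw
    have h1 := core_pos a b da db ha hb (fun z => -q z) (fun z => -qx z) (fun z => -qy z) (neg_q hq)
      (fun z => by have := hn z; nlinarith) (neg_u hu)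
    intro z w h
    apply h1
    simp only [Prod.mk.injEq] at h ⊢
    exact ⟨h.1, by rw [h.2]⟩

end Pool.Agent.Lib.MP_95cf14_ag.LC
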