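import Mathlib

/-! LA, module InvA: `y ↦ p (x, y)` is strictly increasing and onto, its inverse is continuous. -/

namespace Pool.Agent.Lib.MP_95cf14_ag.LC

theorem invA (p px py : ℝ × ℝ → ℝ)
    (hp : ∀ z, HasFDerivAt p (px z • ContinuousLinearMap.fst ℝ ℝ ℝ + py z • ContinuousLinearMap.snd ℝ ℝ ℝ) z)
    {x : ℝ} (hpos : ∀ y, 0 < py (x, y)) (hsurj : Function.Surjective fun y => p (x, y)) :
    ∃ Y : ℝ → ℝ, Continuous Y ∧ ∀ c, p (x, Y c) = c := by
  have hder : ∀ y, HasDerivAt (fun y => p (x, y)) (py (x, y)) y := by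
    intro y
    have h1 : HasDerivAt (fun y : ℝ => (x, y)) ((0 : ℝ), (1 : ℝ)) y :=
      (hasDerivAt_const y x).prodMk (hasDerivAt_id y)
    have h2 := (hp (x, y)).comp_hasDerivAt y h1
    exact h2.congr_deriv (by simp)
  have hmono : StrictMono fun y => p (x, y) :=
    strictMono_of_deriv_pos fun y => by rw [(hder y).deriv]; exact hpos y
  let e := hmono.orderIsoOfSurjective _ hsurj
  exact ⟨e.symm, e.symm.continuous, fun c => e.apply_symm_apply c⟩

end Pool.Agent.Lib.MP_95cf14_ag.LC
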