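import Mathlib

/-! MP_95cf14_ag. Polynomial maps of the real plane: definitions. -/

namespace Pool.Agent.Lib.MP_95cf14_ag.LC

open MvPolynomial

/-- The map of the real plane defined by a pair of polynomials in two variables. -/
noncomputable def planeMap (P : Fin 2 → MvPolynomial (Fin 2) ℝ) : (Fin 2 → ℝ) → (Fin 2 → ℝ) :=
  fun v i => eval v (P i)

/-- The Jacobian determinant `p_x q_y - p_y q_x` of a pair `(p, q)` of polynomials. -/
noncomputable def jacobian (P : Fin 2 → MvPolynomial (Fin 2) ℝ) : MvPolynomial (Fin 2) ℝ :=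
  pderiv 0 (P 0) * pderiv 1 (P 1) - pderiv 1 (P 0) * pderiv 0 (P 1)

/-- the polynomial function `R` in the coordinates `(x, y)` of the frame `(f, e)` -/
noncomputable def fr (R : MvPolynomial (Fin 2) ℝ) (f e : Fin 2 → ℝ) (z : ℝ × ℝ) : ℝ :=
  eval (z.1 • f + z.2 • e) R

/-- the derivative of `R` in the direction `u`, at the point of the frame `(f, e)` with coordinates `z` -/
noncomputable def dir (R : MvPolynomial (Fin 2) ℝ) (u f e : Fin 2 → ℝ) (z : ℝ × ℝ) : ℝ :=
  u 0 * eval (z.1 • f + z.2 • e) (pderiv 0 R) + u 1 * eval (z.1 • f + z.2 • e) (pderiv 1 R)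

end Pool.Agent.Lib.MP_95cf14_ag.LC
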