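import Pool.Agent.Lib.MP_95cf14_ag.LC.Defs

/-! MP_95cf14_ag. Derivatives and continuity of polynomial functions in a frame. -/

namespace Pool.Agent.Lib.MP_95cf14_ag.LC

open MvPolynomial

private theorem fr_X (i : Fin 2) (f e : Fin 2 → ℝ) (z : ℝ × ℝ) :
    HasFDerivAt (fr (X i) f e) (f i • ContinuousLinearMap.fst ℝ ℝ ℝ +
      e i • ContinuousLinearMap.snd ℝ ℝ ℝ) z := by
  have h1 : fr (X i) f e = fun z : ℝ × ℝ => (f i • ContinuousLinearMap.fst ℝ ℝ ℝ +
      e i • ContinuousLinearMap.snd ℝ ℝ ℝ) z := by
    funext z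
    simp [fr, mul_comm]
  rw [h1]
  exact ContinuousLinearMap.hasFDerivAt _

theorem fr_fderiv (R : MvPolynomial (Fin 2) ℝ) (f e : Fin 2 → ℝ) (z : ℝ × ℝ) :
    HasFDerivAt (fr R f e) (dir R f f e z • ContinuousLinearMap.fst ℝ ℝ ℝ +
      dir R e f e z • ContinuousLinearMap.snd ℝ ℝ ℝ) z := by
  induction R using MvPolynomial.induction_on with
  | C a =>
    have h1 : fr (C a) f e = fun _ => a := by
      funext z
      simp [fr]
    have h2 : ∀ u, dir (C a) u f e z = 0 := by
      intro u
      simp [dir]
    rw [h1, h2, h2, zero_smul, zero_smul, add_zero]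
    exact hasFDerivAt_const a z
  | add p q hp hq =>
    have h1 : fr (p + q) f e = fun z => fr p f e z + fr q f e z := by
      funext z
      simp [fr]
    have h2 : ∀ u, dir (p + q) u f e z = dir p u f e z + dir q u f e z := by
      intro u
      simp only [dir, map_add]
      ring
    rw [h1, h2, h2]
    have h3 := hp.add hq
    refine h3.congr_fderiv ?_
    module
  | mul_X p i hp =>
    have h1 : fr (p * X i) f e = fun z => fr p f e z * fr (X i) f e z := by
      funext z
      simp [fr]
    have h2 : ∀ u, dir (p * X i) u f e z = dir p u f e z * fr (X i) f e z + fr p f e z * u i := by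
      intro u
      fin_cases i
      · simp only [dir, fr, Derivation.leibniz, pderiv_X, smul_eq_mul, map_add, map_mul]
        simp
        ring
      · simp only [dir, fr, Derivation.leibniz, pderiv_X, smul_eq_mul, map_add, map_mul]
        simp
        ring
    rw [h1, h2, h2]
    have h3 := hp.mul (fr_X i f e z)
    refine h3.congr_fderiv ?_
    module

theorem fr_cont (R : MvPolynomial (Fin 2) ℝ) (f e : Fin 2 → ℝ) : Continuous (fr R f e) :=
  continuous_iff_continuousAt.2 fun z => (fr_fderiv R f e z).continuousAt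

theorem dir_cont (R : MvPolynomial (Fin 2) ℝ) (u f e : Fin 2 → ℝ) : Continuous (dir R u f e) := by
  have h1 : dir R u f e = fun z => u 0 * fr (pderiv 0 R) f e z + u 1 * fr (pderiv 1 R) f e z := rfl
  rw [h1]
  exact (continuous_const.mul (fr_cont _ f e)).add (continuous_const.mul (fr_cont _ f e))

end Pool.Agent.Lib.MP_95cf14_ag.LC
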