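import Pool.Agent.Lib.MP_95cf14_ag.LC.Defs

/-! A polynomial in one variable whose derivative has no zero is unbounded on both sides. -/

namespace Pool.Agent.Lib.MP_95cf14_ag.LC

open MvPolynomial

private theorem unb_pos (r : Polynomial ℝ) (h : ∀ y, 0 < r.derivative.eval y) (K : ℝ) :
    ∃ y, K < r.eval y := by
  have hm : StrictMono (fun y => r.eval y) := by
    refine strictMono_of_deriv_pos ?_
    intro x
    rw [Polynomial.deriv]
    exact h x
  have hdeg : 0 < r.degree := by
    by_contra hc
    have h1 : r.degree ≤ 0 := not_lt.mp hc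
    rw [Polynomial.eq_C_of_degree_le_zero h1] at h
    have := h 0
    simp at this
  have ht := Polynomial.abs_tendsto_atTop r hdeg
  obtain ⟨y, hy0, hy⟩ := ((Filter.eventually_ge_atTop (0 : ℝ)).and
    (ht.eventually_gt_atTop (max |K| |r.eval 0|))).exists
  refine ⟨y, ?_⟩
  have h2 : r.eval 0 ≤ r.eval y := hm.monotone hy0
  have h3 : |K| < |r.eval y| := lt_of_le_of_lt (le_max_left _ _) hy
  have h4 : |r.eval 0| < |r.eval y| := lt_of_le_of_lt (le_max_right _ _) hy
  have h5 : 0 ≤ r.eval y := by
    by_contra hc
    push Not at hc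
    rw [abs_of_neg hc] at h4
    have := neg_abs_le (r.eval 0)
    linarith
  rw [abs_of_nonneg h5] at h3
  exact lt_of_le_of_lt (le_abs_self K) h3

private theorem unb_both (r : Polynomial ℝ) (h : ∀ y, 0 < r.derivative.eval y) (K : ℝ) :
    (∃ y, r.eval y < K) ∧ ∃ y, K < r.eval y := by
  refine ⟨?_, unb_pos r h K⟩
  obtain ⟨y, hy⟩ := unb_pos (-(r.comp (-Polynomial.X))) (by
    intro y
    have h1 := h (-y)
    simp only [Polynomial.derivative_neg, Polynomial.derivative_comp, Polynomial.derivative_X,
      Polynomial.eval_neg, Polynomial.eval_mul, Polynomial.eval_comp, Polynomial.eval_one,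
      Polynomial.eval_X]
    linarith) (-K)
  refine ⟨-y, ?_⟩
  simp only [Polynomial.eval_neg, Polynomial.eval_comp, Polynomial.eval_X] at hy
  linarith

theorem unb (r : Polynomial ℝ) (h : ∀ y, r.derivative.eval y ≠ 0) (K : ℝ) :
    (∃ y, r.eval y < K) ∧ ∃ y, K < r.eval y := by
  by_cases h0 : 0 < r.derivative.eval 0
  · refine unb_both r ?_ K
    intro y
    by_contra hc
    push Not at hc
    have hcont : Continuous fun y => r.derivative.eval y := r.derivative.continuous
    obtain ⟨z, hz⟩ := mem_range_of_exists_le_of_exists_ge hcont ⟨y, hc⟩ ⟨0, h0.le⟩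
    exact h z hz
  · push Not at h0
    have h2 : ∀ y, 0 < (-r).derivative.eval y := by
      intro y
      by_contra hc
      push Not at hc
      simp only [Polynomial.derivative_neg, Polynomial.eval_neg] at hc
      have hcont : Continuous fun y => r.derivative.eval y := r.derivative.continuous
      obtain ⟨z, hz⟩ := mem_range_of_exists_le_of_exists_ge hcont ⟨0, h0⟩ ⟨y, by linarith⟩
      exact h z hz
    obtain ⟨⟨y, hy⟩, z, hz⟩ := unb_both (-r) h2 (-K)
    rw [Polynomial.eval_neg] at hy hz
    exact ⟨⟨z, by linarith⟩, y, by linarith⟩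

private theorem eval_aeval (g : Fin 2 → Polynomial ℝ) (y : ℝ) (R : MvPolynomial (Fin 2) ℝ) :
    (aeval g R).eval y = eval (fun i => (g i).eval y) R := by
  induction R using MvPolynomial.induction_on with
  | C a => simp
  | add p q hp hq => rw [map_add, Polynomial.eval_add, hp, hq, map_add]
  | mul_X p i hp => rw [map_mul, Polynomial.eval_mul, hp, map_mul, aeval_X, eval_X]

private theorem deriv_aeval (g : Fin 2 → Polynomial ℝ) (R : MvPolynomial (Fin 2) ℝ) :
    (aeval g R).derivative =
      (g 0).derivative * aeval g (pderiv 0 R) + (g 1).derivative * aeval g (pderiv 1 R) := by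
  induction R using MvPolynomial.induction_on with
  | C a => simp
  | add p q hp hq =>
    simp only [map_add, hp, hq]
    ring
  | mul_X p i hp =>
    fin_cases i
    · simp only [Fin.zero_eta, Fin.isValue, map_mul, aeval_X, Polynomial.derivative_mul, hp,
        Derivation.leibniz, pderiv_X_self, smul_eq_mul, map_add, mul_one]
      rw [pderiv_X_of_ne (by decide : (0 : Fin 2) ≠ 1)]
      simp only [map_zero, mul_zero, zero_add]
      ring
    · simp only [Fin.mk_one, Fin.isValue, map_mul, aeval_X, Polynomial.derivative_mul, hp,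
        Derivation.leibniz, pderiv_X_self, smul_eq_mul, map_add, mul_one]
      rw [pderiv_X_of_ne (by decide : (1 : Fin 2) ≠ 0)]
      simp only [map_zero, mul_zero, zero_add]
      ring

theorem fr_unb (R : MvPolynomial (Fin 2) ℝ) (f e : Fin 2 → ℝ) (x : ℝ) (h : ∀ y, dir R e f e (x, y) ≠ 0) (K : ℝ) :
    (∃ y, fr R f e (x, y) < K) ∧ ∃ y, K < fr R f e (x, y) := by
  set g : Fin 2 → Polynomial ℝ :=
    fun i => Polynomial.C (x * f i) + Polynomial.C (e i) * Polynomial.X with hg
  have hgy : ∀ y : ℝ, (fun i => (g i).eval y) = x • f + y • e := by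
    intro y
    funext i
    simp only [hg, Polynomial.eval_add, Polynomial.eval_C, Polynomial.eval_mul,
      Polynomial.eval_X, Pi.add_apply, Pi.smul_apply, smul_eq_mul]
    ring
  have hgd : ∀ i, (g i).derivative = Polynomial.C (e i) := by
    intro i
    simp [hg]
  have h1 : ∀ y, (aeval g R).eval y = fr R f e (x, y) := by
    intro y
    rw [eval_aeval, hgy]
    rfl
  have h2 : ∀ y, (aeval g R).derivative.eval y = dir R e f e (x, y) := by
    intro y
    rw [deriv_aeval, Polynomial.eval_add, Polynomial.eval_mul, Polynomial.eval_mul, hgd, hgd,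
      eval_aeval, eval_aeval, hgy, Polynomial.eval_C, Polynomial.eval_C]
    rfl
  have h3 := unb (aeval g R) (fun y => by rw [h2]; exact h y) K
  simp only [h1] at h3
  exact h3

end Pool.Agent.Lib.MP_95cf14_ag.LC
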