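import Pool.Agent.Lib.MP_95cf14_ag.LC.Core
import Pool.Agent.Lib.MP_95cf14_ag.LC.Der
import Pool.Agent.Lib.MP_95cf14_ag.LC.Unb

/-! MP_95cf14_ag. Reduction of the theorem to the analytic core. -/

namespace Pool.Agent.Lib.MP_95cf14_ag.LC

open MvPolynomial

private theorem dx (R : MvPolynomial (Fin 2) ℝ) (f e : Fin 2 → ℝ) (x c : ℝ) :
    HasDerivAt (fun x => fr R f e (x, c)) (dir R f f e (x, c)) x := by
  have h1 : HasDerivAt (fun x : ℝ => ((x, c) : ℝ × ℝ)) (1, 0) x :=
    (hasDerivAt_id x).prodMk (hasDerivAt_const x c)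
  have h2 := (fr_fderiv R f e (x, c)).comp_hasDerivAt x h1
  have h3 : (dir R f f e (x, c) • ContinuousLinearMap.fst ℝ ℝ ℝ +
      dir R e f e (x, c) • ContinuousLinearMap.snd ℝ ℝ ℝ) ((1, 0) : ℝ × ℝ) = dir R f f e (x, c) := by
    simp
  rw [h3] at h2
  exact h2

private theorem dy (R : MvPolynomial (Fin 2) ℝ) (f e : Fin 2 → ℝ) (x y : ℝ) :
    HasDerivAt (fun y => fr R f e (x, y)) (dir R e f e (x, y)) y := by
  have h1 : HasDerivAt (fun y : ℝ => ((x, y) : ℝ × ℝ)) (0, 1) y :=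
    (hasDerivAt_const y x).prodMk (hasDerivAt_id y)
  have h2 := (fr_fderiv R f e (x, y)).comp_hasDerivAt y h1
  have h3 : (dir R f f e (x, y) • ContinuousLinearMap.fst ℝ ℝ ℝ +
      dir R e f e (x, y) • ContinuousLinearMap.snd ℝ ℝ ℝ) ((0, 1) : ℝ × ℝ) = dir R e f e (x, y) := by
    simp
  rw [h3] at h2
  exact h2

private theorem frame (f e : Fin 2 → ℝ) (hD : f 0 * e 1 - f 1 * e 0 ≠ 0) (v : Fin 2 → ℝ) :
    ∃ z : ℝ × ℝ, v = z.1 • f + z.2 • e := by
  refine ⟨((v 0 * e 1 - v 1 * e 0) / (f 0 * e 1 - f 1 * e 0),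
    (f 0 * v 1 - f 1 * v 0) / (f 0 * e 1 - f 1 * e 0)), ?_⟩
  funext i
  fin_cases i
  · simp only [Fin.zero_eta, Pi.add_apply, Pi.smul_apply, smul_eq_mul]
    rw [div_mul_eq_mul_div, div_mul_eq_mul_div, ← add_div, eq_div_iff hD]
    ring
  · simp only [Fin.mk_one, Pi.add_apply, Pi.smul_apply, smul_eq_mul]
    rw [div_mul_eq_mul_div, div_mul_eq_mul_div, ← add_div, eq_div_iff hD]
    ring

theorem main (P : Fin 2 → MvPolynomial (Fin 2) ℝ) (hJ : ∀ v : Fin 2 → ℝ, eval v (jacobian P) ≠ 0)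
    (α β : ℝ) (e : Fin 2 → ℝ) (hαβ : α ≠ 0 ∨ β ≠ 0) (he : e ≠ 0)
    (h : ∀ v : Fin 2 → ℝ, ∃ s : ℝ, ∀ t : ℝ,
      α * eval (v + t • e) (P 0) + β * eval (v + t • e) (P 1) = α * eval v (P 0) + β * eval v (P 1) + t * s) :
    Function.Injective (planeMap P) := by
  obtain ⟨f, hf⟩ : ∃ f : Fin 2 → ℝ, f = ![-(e 1), e 0] := ⟨_, rfl⟩
  have hD : f 0 * e 1 - f 1 * e 0 ≠ 0 := by
    have h1 : f 0 = -(e 1) := by rw [hf]; rfl
    have h2 : f 1 = e 0 := by rw [hf]; rfl
    rw [h1, h2]
    intro h3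
    apply he
    have h4 : e 1 ^ 2 + e 0 ^ 2 = 0 := by linarith
    have h5 : e 1 = 0 := by
      have := sq_nonneg (e 0)
      have h6 : e 1 ^ 2 = 0 := by nlinarith [sq_nonneg (e 1)]
      exact pow_eq_zero_iff (two_ne_zero) |>.1 h6
    have h7 : e 0 = 0 := by
      rw [h5] at h4
      have h6 : e 0 ^ 2 = 0 := by linarith
      exact pow_eq_zero_iff (two_ne_zero) |>.1 h6
    funext i
    fin_cases i
    · exact h7
    · exact h5
  have hab : α ^ 2 + β ^ 2 ≠ 0 := by
    intro h0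
    rcases hαβ with h1 | h1
    · have := sq_pos_of_ne_zero h1
      nlinarith [sq_nonneg β]
    · have := sq_pos_of_ne_zero h1
      nlinarith [sq_nonneg α]
  obtain ⟨G, hG⟩ : ∃ G : MvPolynomial (Fin 2) ℝ, G = C α * P 0 + C β * P 1 := ⟨_, rfl⟩
  obtain ⟨H, hH⟩ : ∃ H : MvPolynomial (Fin 2) ℝ, H = C (-β) * P 0 + C α * P 1 := ⟨_, rfl⟩
  have eG : ∀ v, eval v G = α * eval v (P 0) + β * eval v (P 1) := by
    intro v; rw [hG]; simp
  have eH : ∀ v, eval v H = -β * eval v (P 0) + α * eval v (P 1) := by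
    intro v; rw [hH]; simp
  have pG : ∀ (i : Fin 2) v, eval v (pderiv i G) =
      α * eval v (pderiv i (P 0)) + β * eval v (pderiv i (P 1)) := by
    intro i v; rw [hG]; simp
  have pH : ∀ (i : Fin 2) v, eval v (pderiv i H) =
      -β * eval v (pderiv i (P 0)) + α * eval v (pderiv i (P 1)) := by
    intro i v; rw [hH]; simp
  have hlin : ∀ x y : ℝ, fr G f e (x, y) =
      fr G f e (x, 0) + (fr G f e (x, 1) - fr G f e (x, 0)) * y := by
    intro x y
    obtain ⟨s, hs⟩ := h (x • f)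
    have h1 : ∀ t : ℝ, fr G f e (x, t) = eval (x • f) G + t * s := by
      intro t
      have := hs t
      rw [← eG, ← eG] at this
      exact this
    rw [h1 y, h1 0, h1 1]
    ring
  have d1 : ∀ x y : ℝ, dir G f f e (x, y) =
      dir G f f e (x, 0) + (dir G f f e (x, 1) - dir G f f e (x, 0)) * y := by
    intro x y
    have h1 := dx G f e x y
    have h2 : HasDerivAt (fun x => fr G f e (x, y))
        (dir G f f e (x, 0) + (dir G f f e (x, 1) - dir G f f e (x, 0)) * y) x := by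
      have h3 := (dx G f e x 0).add (((dx G f e x 1).sub (dx G f e x 0)).mul_const y)
      refine h3.congr_of_eventuallyEq (Filter.Eventually.of_forall fun x' => ?_)
      exact hlin x' y
    exact h1.unique h2
  have d2 : ∀ x y : ℝ, dir G e f e (x, y) = fr G f e (x, 1) - fr G f e (x, 0) := by
    intro x y
    have h1 := dy G f e x y
    have h2 : HasDerivAt (fun y => fr G f e (x, y)) (fr G f e (x, 1) - fr G f e (x, 0)) y := by
      have h3 : HasDerivAt (fun y : ℝ => fr G f e (x, 0) +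
          (fr G f e (x, 1) - fr G f e (x, 0)) * y) (fr G f e (x, 1) - fr G f e (x, 0)) y := by
        simpa using ((hasDerivAt_id y).const_mul
          (fr G f e (x, 1) - fr G f e (x, 0))).const_add (fr G f e (x, 0))
      refine h3.congr_of_eventuallyEq (Filter.Eventually.of_forall fun y' => ?_)
      exact hlin x y'
    exact h1.unique h2
  have hexp : ∀ z : ℝ × ℝ,
      (dir G f f e (z.1, 0) + (dir G f f e (z.1, 1) - dir G f f e (z.1, 0)) * z.2) * dir H e f e z -
        (fr G f e (z.1, 1) - fr G f e (z.1, 0)) * dir H f f e z =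
      dir G f f e z * dir H e f e z - dir G e f e z * dir H f f e z := by
    intro z
    rw [← d1 z.1 z.2, ← d2 z.1 z.2]
  have hjac : ∀ z : ℝ × ℝ, dir G f f e z * dir H e f e z - dir G e f e z * dir H f f e z =
      (α ^ 2 + β ^ 2) * (f 0 * e 1 - f 1 * e 0) * eval (z.1 • f + z.2 • e) (jacobian P) := by
    intro z
    simp only [dir, pG, pH, jacobian, map_sub, map_mul]
    ring
  have hcore := core (fun x => fr G f e (x, 0)) (fun x => fr G f e (x, 1) - fr G f e (x, 0))
    (fun x => dir G f f e (x, 0)) (fun x => dir G f f e (x, 1) - dir G f f e (x, 0))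
    (fun x => dx G f e x 0) (fun x => (dx G f e x 1).sub (dx G f e x 0))
    (fr H f e) (dir H f f e) (dir H e f e) (fun z => fr_fderiv H f e z)
    (by
      have h1 : (fun z : ℝ × ℝ =>
          (dir G f f e (z.1, 0) + (dir G f f e (z.1, 1) - dir G f f e (z.1, 0)) * z.2) *
            dir H e f e z - (fr G f e (z.1, 1) - fr G f e (z.1, 0)) * dir H f f e z) =
          fun z => dir G f f e z * dir H e f e z - dir G e f e z * dir H f f e z :=
        funext hexp
      rw [h1]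
      exact ((dir_cont G f f e).mul (dir_cont H e f e)).sub ((dir_cont G e f e).mul (dir_cont H f f e)))
    (by
      intro z
      rw [hexp z, hjac z]
      exact mul_ne_zero (mul_ne_zero hab hD) (hJ _))
    (fun x K hy => fr_unb H f e x hy K)
  intro v w hvw
  obtain ⟨z, hz⟩ := frame f e hD v
  obtain ⟨z', hz'⟩ := frame f e hD w
  have h0 : eval v (P 0) = eval w (P 0) := congrFun hvw 0
  have h1 : eval v (P 1) = eval w (P 1) := congrFun hvw 1
  have hGvw : fr G f e z = fr G f e z' := by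
    show eval (z.1 • f + z.2 • e) G = eval (z'.1 • f + z'.2 • e) G
    rw [← hz, ← hz', eG, eG, h0, h1]
  have hHvw : fr H f e z = fr H f e z' := by
    show eval (z.1 • f + z.2 • e) H = eval (z'.1 • f + z'.2 • e) H
    rw [← hz, ← hz', eH, eH, h0, h1]
  have hzz : z = z' := by
    apply hcore
    show (fr G f e (z.1, 0) + (fr G f e (z.1, 1) - fr G f e (z.1, 0)) * z.2, fr H f e z) =
      (fr G f e (z'.1, 0) + (fr G f e (z'.1, 1) - fr G f e (z'.1, 0)) * z'.2, fr H f e z')
    rw [← hlin z.1 z.2, ← hlin z'.1 z'.2]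
    exact Prod.ext hGvw hHvw
  rw [hz, hz', hzz]

end Pool.Agent.Lib.MP_95cf14_ag.LC
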