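import Pool.Agent.Lib.MP_95cf14_ag.LC.CoreA
import Pool.Agent.Lib.MP_95cf14_ag.LC.Der
import Pool.Agent.Lib.MP_95cf14_ag.LC.Unb

namespace Pool.Agent.Lib.MP_95cf14_ag.LC

open MvPolynomial

/-- the derivative of `α p + β q` at `v` in the direction `e` -/
noncomputable def dirDeriv (P : Fin 2 → MvPolynomial (Fin 2) ℝ) (α β : ℝ) (e v : Fin 2 → ℝ) : ℝ :=
  α * (e 0 * eval v (pderiv 0 (P 0)) + e 1 * eval v (pderiv 1 (P 0))) +
    β * (e 0 * eval v (pderiv 0 (P 1)) + e 1 * eval v (pderiv 1 (P 1)))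

private lemma fr_comb (P : Fin 2 → MvPolynomial (Fin 2) ℝ) (a b : ℝ) (f e : Fin 2 → ℝ)
    (z : ℝ × ℝ) : fr (C a * P 0 + C b * P 1) f e z = a * fr (P 0) f e z + b * fr (P 1) f e z := by
  simp only [fr, map_add, map_mul, eval_C]

private lemma dir_comb (P : Fin 2 → MvPolynomial (Fin 2) ℝ) (a b : ℝ) (u f e : Fin 2 → ℝ)
    (z : ℝ × ℝ) : dir (C a * P 0 + C b * P 1) u f e z =
      a * dir (P 0) u f e z + b * dir (P 1) u f e z := by
  simp only [dir, map_add, pderiv_C_mul, map_mul, eval_C]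
  ring

theorem mainA (P : Fin 2 → MvPolynomial (Fin 2) ℝ) (hJ : ∀ v : Fin 2 → ℝ, eval v (jacobian P) ≠ 0)
    (α β : ℝ) (e : Fin 2 → ℝ) (hαβ : α ≠ 0 ∨ β ≠ 0) (he : e ≠ 0)
    (h : ∀ v : Fin 2 → ℝ, (∀ t : ℝ, dirDeriv P α β e (v + t • e) = 0) ∨
      ∀ t : ℝ, dirDeriv P α β e (v + t • e) ≠ 0) :
    Function.Injective (planeMap P) := by
  obtain ⟨f, hf⟩ : ∃ f : Fin 2 → ℝ, f = ![-(e 1), e 0] := ⟨_, rfl⟩
  have hf0 : f 0 = -(e 1) := by rw [hf]; rfl
  have hf1 : f 1 = e 0 := by rw [hf]; rfl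
  have hD : f 0 * e 1 - f 1 * e 0 ≠ 0 := by
    rw [hf0, hf1]
    intro h0
    apply he
    have h1 : e 0 = 0 := by nlinarith [sq_nonneg (e 0), sq_nonneg (e 1)]
    have h2 : e 1 = 0 := by nlinarith [sq_nonneg (e 0), sq_nonneg (e 1)]
    ext i
    fin_cases i
    · exact h1
    · exact h2
  have hαβ2 : α ^ 2 + β ^ 2 ≠ 0 := by
    intro h0
    rcases hαβ with h1 | h1
    · exact h1 (by nlinarith [sq_nonneg α, sq_nonneg β])
    · exact h1 (by nlinarith [sq_nonneg α, sq_nonneg β])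
  obtain ⟨G, hG⟩ : ∃ G : MvPolynomial (Fin 2) ℝ, G = C α * P 0 + C β * P 1 := ⟨_, rfl⟩
  obtain ⟨H, hH⟩ : ∃ H : MvPolynomial (Fin 2) ℝ, H = C (-β) * P 0 + C α * P 1 := ⟨_, rfl⟩
  have hdir : ∀ x t : ℝ, dir G e f e (x, t) = dirDeriv P α β e (x • f + t • e) := by
    intro x t
    rw [hG, dir_comb]
    rfl
  have hcore := coreA (fr G f e) (dir G f f e) (dir G e f e) (fr H f e) (dir H f f e)
    (dir H e f e) (fr_fderiv G f e) (fr_fderiv H f e) (dir_cont G e f e)
    (((dir_cont G f f e).mul (dir_cont H e f e)).sub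
      ((dir_cont G e f e).mul (dir_cont H f f e)))
    (by
      intro z
      have h1 : dir G f f e z * dir H e f e z - dir G e f e z * dir H f f e z =
          (α ^ 2 + β ^ 2) * (f 0 * e 1 - f 1 * e 0) *
            eval (z.1 • f + z.2 • e) (jacobian P) := by
        rw [hG, hH, dir_comb, dir_comb, dir_comb, dir_comb]
        simp only [dir, jacobian, map_sub, map_mul]
        ring
      rw [h1]
      exact mul_ne_zero (mul_ne_zero hαβ2 hD) (hJ _))
    (by
      intro x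
      rcases h (x • f) with h1 | h1
      · left
        intro y
        rw [hdir]
        exact h1 y
      · right
        intro y
        rw [hdir]
        exact h1 y)
    (by
      intro x hx K
      obtain ⟨⟨y1, h1⟩, ⟨y2, h2⟩⟩ := fr_unb G f e x hx K
      have hc : Continuous fun y : ℝ => fr G f e (x, y) :=
        (fr_cont G f e).comp (continuous_const.prodMk continuous_id)
      exact mem_range_of_exists_le_of_exists_ge hc ⟨y1, h1.le⟩ ⟨y2, h2.le⟩)
    (fun x K hx => fr_unb H f e x hx K)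
  -- coordinates
  have hco : ∀ v : Fin 2 → ℝ, ∃ z : ℝ × ℝ, z.1 • f + z.2 • e = v := by
    intro v
    refine ⟨((v 0 * e 1 - v 1 * e 0) / (f 0 * e 1 - f 1 * e 0),
      (f 0 * v 1 - f 1 * v 0) / (f 0 * e 1 - f 1 * e 0)), ?_⟩
    ext i
    fin_cases i
    · simp only [Pi.add_apply, Pi.smul_apply, smul_eq_mul, Fin.zero_eta, Fin.isValue]
      rw [div_mul_eq_mul_div, div_mul_eq_mul_div, ← add_div, div_eq_iff hD]
      ring
    · simp only [Pi.add_apply, Pi.smul_apply, smul_eq_mul, Fin.mk_one, Fin.isValue]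
      rw [div_mul_eq_mul_div, div_mul_eq_mul_div, ← add_div, div_eq_iff hD]
      ring
  intro v w hvw
  obtain ⟨z, hz⟩ := hco v
  obtain ⟨z', hz'⟩ := hco w
  have hP : ∀ i, fr (P i) f e z = fr (P i) f e z' := by
    intro i
    have h1 := congrFun hvw i
    simp only [fr, hz, hz']
    exact h1
  have hzz : z = z' := by
    apply hcore
    simp only [hG, hH, fr_comb, hP]
  rw [← hz, ← hz', hzz]

end Pool.Agent.Lib.MP_95cf14_ag.LC
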