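import Mathlib

/-!
# One step along a level curve

Along a level curve `y = Y x` of `p` in a strip where `p` is strictly increasing in `y` the function `q` is
strictly decreasing, since its derivative is minus the Jacobian divided by the `y`-derivative of `p`.
-/

namespace Pool.Agent.Lib.MP_95cf14_ag.LC

open Asymptotics Filter Topology

/-- the derivative of an implicit function which is known to be continuous -/
private theorem implicit_deriv {p : ℝ × ℝ → ℝ} {A B : ℝ} {Y : ℝ → ℝ} {x : ℝ}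
    (hp : HasFDerivAt p (A • ContinuousLinearMap.fst ℝ ℝ ℝ + B • ContinuousLinearMap.snd ℝ ℝ ℝ)
      (x, Y x)) (hB : B ≠ 0) (hY : ContinuousAt Y x)
    (hc : ∀ᶠ t in 𝓝 x, p (t, Y t) = p (x, Y x)) : HasDerivAt Y (-A / B) x := by
  rw [hasDerivAt_iff_isLittleO]
  have h1 := hasFDerivAt_iff_isLittleO.1 hp
  have hφ : Tendsto (fun t => (t, Y t)) (𝓝 x) (𝓝 (x, Y x)) := continuousAt_id.prodMk hY
  have h2 := h1.comp_tendsto hφ
  have h3 : (fun t => ((0 : ℝ), Y t - Y x - (t - x) • (-A / B))) =o[𝓝 x]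
      fun t => ((t, Y t) - (x, Y x) : ℝ × ℝ) := by
    have h4 : (fun t => Y t - Y x - (t - x) • (-A / B)) =o[𝓝 x]
        fun t => ((t, Y t) - (x, Y x) : ℝ × ℝ) := by
      refine (h2.const_mul_left (-(1 / B))).congr' ?_ (Eventually.of_forall fun t => rfl)
      filter_upwards [hc] with t ht
      change -(1 / B) * (p (t, Y t) - p (x, Y x) - (A * (t - x) + B * (Y t - Y x))) = _
      rw [ht, smul_eq_mul]
      field_simp
      ring
    exact (isLittleO_zero _ _).prod_left h4
  have h5 := h3.right_isBigO_sub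
  have h6 : (fun t => ((t, Y t) - (x, Y x) : ℝ × ℝ)) =O[𝓝 x] fun t => t - x := by
    refine h5.trans ?_
    have h7 : ∀ t, ((t, Y t) - (x, Y x) : ℝ × ℝ) - ((0 : ℝ), Y t - Y x - (t - x) • (-A / B)) =
        (t - x, (-A / B) * (t - x)) := by
      intro t
      ext
      · simp
      · simp only [Prod.snd_sub, smul_eq_mul]
        ring
    simp only [h7]
    exact (isBigO_refl _ _).prod_left ((isBigO_refl _ _).const_mul_left _)
  exact (isLittleO_prod_left.1 h3).2.trans_isBigO h6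

theorem stepA (p px py q qx qy : ℝ × ℝ → ℝ)
    (hp : ∀ z, HasFDerivAt p (px z • ContinuousLinearMap.fst ℝ ℝ ℝ + py z • ContinuousLinearMap.snd ℝ ℝ ℝ) z)
    (hq : ∀ z, HasFDerivAt q (qx z • ContinuousLinearMap.fst ℝ ℝ ℝ + qy z • ContinuousLinearMap.snd ℝ ℝ ℝ) z)
    (hJ : ∀ z, 0 < px z * qy z - py z * qx z) {x₁ x₂ : ℝ} (h12 : x₁ < x₂)
    (hpos : ∀ x ∈ Set.Icc x₁ x₂, ∀ y, 0 < py (x, y))
    (hsurj : ∀ x ∈ Set.Icc x₁ x₂, Function.Surjective fun y => p (x, y)) {y₁ y₂ : ℝ}
    (he : p (x₁, y₁) = p (x₂, y₂)) : q (x₂, y₂) < q (x₁, y₁) := by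
  have hpc : Continuous p := continuous_iff_continuousAt.mpr fun z => (hp z).continuousAt
  have hqc : Continuous q := continuous_iff_continuousAt.mpr fun z => (hq z).continuousAt
  have hpy : ∀ x y, HasDerivAt (fun y => p (x, y)) (py (x, y)) y := by
    intro x y
    have h3 : HasDerivAt (fun y => (x, y)) ((0 : ℝ), (1 : ℝ)) y :=
      (hasDerivAt_const y x).prodMk (hasDerivAt_id y)
    have h4 := (hp (x, y)).comp_hasDerivAt y h3
    have h5 : (px (x, y) • ContinuousLinearMap.fst ℝ ℝ ℝ +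
        py (x, y) • ContinuousLinearMap.snd ℝ ℝ ℝ) ((0 : ℝ), (1 : ℝ)) = py (x, y) := by
      change px (x, y) * 0 + py (x, y) * 1 = _
      ring
    rw [h5] at h4
    exact h4
  have hmono : ∀ x ∈ Set.Icc x₁ x₂, StrictMono fun y => p (x, y) := by
    intro x hx
    apply strictMono_of_deriv_pos
    intro y
    rw [(hpy x y).deriv]
    exact hpos x hx y
  have hex : ∀ x, ∃ y, x ∈ Set.Icc x₁ x₂ → p (x, y) = p (x₁, y₁) := by
    intro x
    by_cases hx : x ∈ Set.Icc x₁ x₂
    · obtain ⟨y, hy⟩ := hsurj x hx (p (x₁, y₁))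
      exact ⟨y, fun _ => hy⟩
    · exact ⟨0, fun h => absurd h hx⟩
  choose Y hY using hex
  have hcont : ContinuousOn Y (Set.Icc x₁ x₂) := by
    intro x hx
    rw [ContinuousWithinAt, Metric.tendsto_nhds]
    intro ε hε
    have hlo : p (x, Y x - ε) < p (x₁, y₁) := by
      rw [← hY x hx]
      exact hmono x hx (by linarith)
    have hhi : p (x₁, y₁) < p (x, Y x + ε) := by
      rw [← hY x hx]
      exact hmono x hx (by linarith)
    have hc1 : Continuous fun t => p (t, Y x - ε) := hpc.comp (continuous_id.prodMk continuous_const)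
    have hc2 : Continuous fun t => p (t, Y x + ε) := hpc.comp (continuous_id.prodMk continuous_const)
    have e1 : ∀ᶠ t in 𝓝[Set.Icc x₁ x₂] x, p (t, Y x - ε) < p (x₁, y₁) :=
      mem_nhdsWithin_of_mem_nhds ((hc1.tendsto x).eventually (gt_mem_nhds hlo))
    have e2 : ∀ᶠ t in 𝓝[Set.Icc x₁ x₂] x, p (x₁, y₁) < p (t, Y x + ε) :=
      mem_nhdsWithin_of_mem_nhds ((hc2.tendsto x).eventually (lt_mem_nhds hhi))
    filter_upwards [e1, e2, self_mem_nhdsWithin] with t h1 h2 ht
    rw [← hY t ht] at h1 h2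
    have h3 := (hmono t ht).lt_iff_lt.1 h1
    have h4 := (hmono t ht).lt_iff_lt.1 h2
    rw [Real.dist_eq, abs_lt]
    constructor <;> linarith
  have hanti : StrictAntiOn (fun x => q (x, Y x)) (Set.Icc x₁ x₂) := by
    apply strictAntiOn_of_deriv_neg (convex_Icc x₁ x₂)
    · exact hqc.comp_continuousOn (continuousOn_id.prodMk hcont)
    · intro x hx
      rw [interior_Icc] at hx
      have hx' : x ∈ Set.Icc x₁ x₂ := ⟨hx.1.le, hx.2.le⟩
      have hnh : Set.Icc x₁ x₂ ∈ 𝓝 x := Icc_mem_nhds hx.1 hx.2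
      have hB := hpos x hx' (Y x)
      have h1 : HasDerivAt Y (-px (x, Y x) / py (x, Y x)) x := by
        refine implicit_deriv (hp (x, Y x)) hB.ne' (hcont.continuousAt hnh) ?_
        filter_upwards [hnh] with t ht
        rw [hY t ht, hY x hx']
      have h3 : HasDerivAt (fun x => (x, Y x)) ((1 : ℝ), -px (x, Y x) / py (x, Y x)) x :=
        (hasDerivAt_id x).prodMk h1
      have h4 := (hq (x, Y x)).comp_hasDerivAt x h3
      have h5 : (qx (x, Y x) • ContinuousLinearMap.fst ℝ ℝ ℝ +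
          qy (x, Y x) • ContinuousLinearMap.snd ℝ ℝ ℝ) ((1 : ℝ), -px (x, Y x) / py (x, Y x)) =
          -(px (x, Y x) * qy (x, Y x) - py (x, Y x) * qx (x, Y x)) / py (x, Y x) := by
        change qx (x, Y x) * 1 + qy (x, Y x) * (-px (x, Y x) / py (x, Y x)) = _
        field_simp
        ring
      rw [h5] at h4
      have h6 : deriv (fun x => q (x, Y x)) x =
          -(px (x, Y x) * qy (x, Y x) - py (x, Y x) * qx (x, Y x)) / py (x, Y x) := h4.deriv
      rw [h6]
      apply div_neg_of_neg_of_pos _ hB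
      have := hJ (x, Y x)
      linarith
  have hL := Set.left_mem_Icc.mpr h12.le
  have hR := Set.right_mem_Icc.mpr h12.le
  have hY1 : Y x₁ = y₁ := (hmono x₁ hL).injective (hY x₁ hL)
  have hY2 : Y x₂ = y₂ := (hmono x₂ hR).injective ((hY x₂ hR).trans he)
  have hfin := hanti hL hR h12
  simp only [hY1, hY2] at hfin
  exact hfin

end Pool.Agent.Lib.MP_95cf14_ag.LC
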